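import Mathlib

/-!
# Chromatic symmetric polynomials: removal of the last colour class
-/

set_option autoImplicit false

namespace Pool.Agent.Q223.SNP

open Finset MvPolynomial
open scoped Classical

variable {V : Type} [Fintype V]

/-- proper colourings of the vertices in `W` with colours below `k` -/
noncomputable def KC (G : SimpleGraph V) (k : ℕ) (W : Finset V) : Finset (V → ℕ) :=
  (Fintype.piFinset (fun v => if v ∈ W then range k else {0})).filter
    (fun κ => ∀ u ∈ W, ∀ v ∈ W, G.Adj u v → κ u ≠ κ v)

theorem mem_KC {G : SimpleGraph V} {k : ℕ} {W : Finset V} {κ : V → ℕ} :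
    κ ∈ KC G k W ↔ (∀ v ∈ W, κ v < k) ∧ (∀ v, v ∉ W → κ v = 0) ∧
      ∀ u ∈ W, ∀ v ∈ W, G.Adj u v → κ u ≠ κ v := by
  unfold KC
  rw [Finset.mem_filter, Fintype.mem_piFinset]
  constructor
  · rintro ⟨h1, h2⟩
    refine ⟨fun v hv => ?_, fun v hv => ?_, h2⟩
    · have := h1 v
      rw [if_pos hv, Finset.mem_range] at this
      exact this
    · have := h1 v
      rw [if_neg hv, Finset.mem_singleton] at this
      exact this
  · rintro ⟨h1, h2, h3⟩
    refine ⟨fun v => ?_, h3⟩
    by_cases hv : v ∈ W
    · rw [if_pos hv, Finset.mem_range]; exact h1 v hv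
    · rw [if_neg hv, Finset.mem_singleton]; exact h2 v hv

/-- chromatic symmetric polynomial of the subgraph induced on `W` -/
noncomputable def AC (G : SimpleGraph V) (k : ℕ) (W : Finset V) : MvPolynomial ℕ ℤ :=
  ∑ κ ∈ KC G k W, ∏ v ∈ W, X (κ v)

theorem AC_eq_finsum (G : SimpleGraph V) (k : ℕ) :
    (∑ᶠ κ : {κ : V → Fin k // ∀ u v, G.Adj u v → κ u ≠ κ v},
      ∏ v, (X ((κ.1 v : ℕ)) : MvPolynomial ℕ ℤ)) = AC G k univ := by
  have : Fintype {κ : V → Fin k // ∀ u v, G.Adj u v → κ u ≠ κ v} := Fintype.ofFinite _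
  rw [finsum_eq_sum_of_fintype]
  unfold AC
  refine Finset.sum_bij (fun κ _ => fun v => ((κ.1 v : Fin k) : ℕ)) ?_ ?_ ?_ ?_
  · intro κ _
    rw [mem_KC]
    refine ⟨fun v _ => (κ.1 v).2, fun v hv => absurd (Finset.mem_univ v) hv, ?_⟩
    intro u _ v _ huv h
    exact κ.2 u v huv (Fin.ext h)
  · intro κ _ κ' _ h
    apply Subtype.ext
    funext v
    exact Fin.ext (congrFun h v)
  · intro κ hκ
    rw [mem_KC] at hκ
    refine ⟨⟨fun v => ⟨κ v, hκ.1 v (Finset.mem_univ v)⟩, ?_⟩, Finset.mem_univ _, rfl⟩
    intro u v huv h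
    exact hκ.2.2 u (Finset.mem_univ u) v (Finset.mem_univ v) huv (congrArg Fin.val h)
  · intro κ _
    rfl

theorem AC_zero (G : SimpleGraph V) (W : Finset V) : AC G 0 W = if W = ∅ then 1 else 0 := by
  by_cases h : W = ∅
  · subst h
    rw [if_pos rfl]
    unfold AC
    have : KC G 0 ∅ = {fun _ => 0} := by
      ext κ
      rw [mem_KC, Finset.mem_singleton]
      constructor
      · rintro ⟨-, h2, -⟩
        funext v
        exact h2 v (Finset.notMem_empty v)
      · rintro rfl
        exact ⟨fun v hv => absurd hv (Finset.notMem_empty v), fun v _ => rfl,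
          fun u hu => absurd hu (Finset.notMem_empty u)⟩
    rw [this]
    simp
  · rw [if_neg h]
    unfold AC
    have : KC G 0 W = ∅ := by
      rw [Finset.eq_empty_iff_forall_notMem]
      intro κ hκ
      obtain ⟨v, hv⟩ := Finset.nonempty_iff_ne_empty.2 h
      exact absurd ((mem_KC.1 hκ).1 v hv) (Nat.not_lt_zero _)
    rw [this, Finset.sum_empty]

/-- stable sets -/
def Stab (G : SimpleGraph V) (S : Finset V) : Prop := ∀ u ∈ S, ∀ v ∈ S, ¬ G.Adj u v

theorem AC_succ (G : SimpleGraph V) (k : ℕ) (W : Finset V) :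
    AC G (k + 1) W = ∑ S ∈ W.powerset,
      if Stab G S then AC G k (W \ S) * X k ^ S.card else 0 := by
  unfold AC
  rw [← Finset.sum_fiberwise_of_maps_to (s := KC G (k + 1) W) (t := W.powerset)
    (g := fun κ => W.filter fun v => κ v = k)
    (fun κ _ => Finset.mem_powerset.2 (Finset.filter_subset _ _))]
  apply Finset.sum_congr rfl
  intro S hS
  rw [Finset.mem_powerset] at hS
  split_ifs with hst
  · rw [Finset.sum_mul]
    refine Finset.sum_bij' (fun κ _ => fun v => if v ∈ S then 0 else κ v)
      (fun κ _ => fun v => if v ∈ S then k else κ v) ?_ ?_ ?_ ?_ ?_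
    · intro κ hκ
      rw [Finset.mem_filter, mem_KC] at hκ
      obtain ⟨⟨h1, h2, h3⟩, h4⟩ := hκ
      have h5 : ∀ v, v ∈ S ↔ v ∈ W ∧ κ v = k := by
        intro v; rw [← h4, Finset.mem_filter]
      rw [mem_KC]
      refine ⟨fun v hv => ?_, fun v hv => ?_, ?_⟩
      · rw [Finset.mem_sdiff] at hv
        rw [if_neg hv.2]
        have h6 := h1 v hv.1
        have h7 : κ v ≠ k := fun h => hv.2 ((h5 v).2 ⟨hv.1, h⟩)
        omega
      · by_cases hvS : v ∈ S
        · rw [if_pos hvS]
        · rw [if_neg hvS]
          apply h2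
          intro hvW
          exact hv (Finset.mem_sdiff.2 ⟨hvW, hvS⟩)
      · intro u hu v hv huv
        rw [Finset.mem_sdiff] at hu hv
        rw [if_neg hu.2, if_neg hv.2]
        exact h3 u hu.1 v hv.1 huv
    · intro κ hκ
      rw [mem_KC] at hκ
      obtain ⟨h1, h2, h3⟩ := hκ
      rw [Finset.mem_filter, mem_KC]
      have h1' : ∀ v ∈ W, v ∉ S → κ v < k := fun v hv hvS => h1 v (Finset.mem_sdiff.2 ⟨hv, hvS⟩)
      refine ⟨⟨fun v hv => ?_, fun v hv => ?_, ?_⟩, ?_⟩
      · by_cases hvS : v ∈ S
        · rw [if_pos hvS]; exact Nat.lt_succ_self k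
        · rw [if_neg hvS]; exact (h1' v hv hvS).trans (Nat.lt_succ_self k)
      · have hvS : v ∉ S := fun h => hv (hS h)
        rw [if_neg hvS]
        exact h2 v (fun h => hv (Finset.mem_sdiff.1 h).1)
      · intro u hu v hv huv
        by_cases huS : u ∈ S
        · by_cases hvS : v ∈ S
          · exact absurd huv (hst u huS v hvS)
          · rw [if_pos huS, if_neg hvS]
            exact (h1' v hv hvS).ne'
        · by_cases hvS : v ∈ S
          · rw [if_neg huS, if_pos hvS]
            exact (h1' u hu huS).ne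
          · rw [if_neg huS, if_neg hvS]
            exact h3 u (Finset.mem_sdiff.2 ⟨hu, huS⟩) v (Finset.mem_sdiff.2 ⟨hv, hvS⟩) huv
      · ext v
        rw [Finset.mem_filter]
        constructor
        · rintro ⟨hv, h⟩
          by_contra hvS
          have h' : (if v ∈ S then k else κ v) = k := h
          rw [if_neg hvS] at h'
          exact (h1' v hv hvS).ne h'
        · intro hvS
          exact ⟨hS hvS, if_pos hvS⟩
    · intro κ hκ
      rw [Finset.mem_filter, mem_KC] at hκ
      obtain ⟨⟨h1, h2, h3⟩, h4⟩ := hκ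
      funext v
      by_cases hvS : v ∈ S
      · have : v ∈ W ∧ κ v = k := by
          rw [← h4, Finset.mem_filter] at hvS; exact hvS
        simp only [if_pos hvS]
        exact this.2.symm
      · simp only [if_neg hvS]
    · intro κ hκ
      rw [mem_KC] at hκ
      funext v
      by_cases hvS : v ∈ S
      · simp only [if_pos hvS]
        exact (hκ.2.1 v (fun h => (Finset.mem_sdiff.1 h).2 hvS)).symm
      · simp only [if_neg hvS]
    · intro κ hκ
      rw [Finset.mem_filter, mem_KC] at hκ
      obtain ⟨⟨h1, h2, h3⟩, h4⟩ := hκ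
      rw [← Finset.prod_sdiff hS]
      congr 1
      · apply Finset.prod_congr rfl
        intro v hv
        rw [Finset.mem_sdiff] at hv
        show X (κ v) = X (if v ∈ S then 0 else κ v)
        rw [if_neg hv.2]
      · rw [← Finset.prod_const]
        apply Finset.prod_congr rfl
        intro v hv
        have : v ∈ W ∧ κ v = k := by
          rw [← h4, Finset.mem_filter] at hv; exact hv
        rw [this.2]
  · apply Finset.sum_eq_zero
    intro κ hκ
    exfalso
    apply hst
    rw [Finset.mem_filter, mem_KC] at hκ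
    obtain ⟨⟨h1, h2, h3⟩, h4⟩ := hκ
    intro u hu v hv huv
    have hu' : u ∈ W ∧ κ u = k := by
      rw [← h4, Finset.mem_filter] at hu; exact hu
    have hv' : v ∈ W ∧ κ v = k := by
      rw [← h4, Finset.mem_filter] at hv; exact hv
    exact h3 u hu'.1 v hv'.1 huv (hu'.2.trans hv'.2.symm)

/-! ## Sums over subsets that depend only on the numbers of elements in four parts -/

variable {M : Type} [AddCommMonoid M]

/-- binomial sum -/
def BS (n : ℕ) (f : ℕ → M) : M := ∑ a ∈ range (n + 1), n.choose a • f a

theorem BS_add (n : ℕ) (f g : ℕ → M) : BS n (fun a => f a + g a) = BS n f + BS n g := by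
  unfold BS
  rw [← Finset.sum_add_distrib]
  apply Finset.sum_congr rfl
  intro a _
  rw [smul_add]

theorem BS_succ (n : ℕ) (f : ℕ → M) : BS (n + 1) f = BS n f + BS n (fun a => f (a + 1)) := by
  unfold BS
  rw [Finset.sum_range_succ', Finset.sum_range_succ' (fun a => n.choose a • f a)]
  have h1 : ∑ k ∈ range (n + 1), (n + 1).choose (k + 1) • f (k + 1) =
      ∑ k ∈ range (n + 1), n.choose k • f (k + 1) + ∑ k ∈ range (n + 1), n.choose (k + 1) • f (k + 1) := by
    rw [← Finset.sum_add_distrib]
    apply Finset.sum_congr rfl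
    intro k _
    rw [Nat.choose_succ_succ, add_smul]
  rw [h1, Finset.sum_range_succ (fun k => n.choose (k + 1) • f (k + 1)), Nat.choose_succ_self,
    zero_smul, add_zero, Nat.choose_zero_right, Nat.choose_zero_right]
  abel

/-- number of elements of `W` in the part `i` -/
def tp (part : V → ℕ) (W : Finset V) (i : ℕ) : ℕ := (W.filter fun v => part v = i).card

theorem lump (part : V → ℕ) (hp : ∀ v, part v < 4) (W : Finset V) : ∀ F : ℕ → ℕ → ℕ → ℕ → M,
    ∑ S ∈ W.powerset, F (tp part S 0) (tp part S 1) (tp part S 2) (tp part S 3) =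
      BS (tp part W 0) fun a => BS (tp part W 1) fun b => BS (tp part W 2) fun c =>
        BS (tp part W 3) fun d => F a b c d := by
  induction W using Finset.induction_on with
  | empty =>
    intro F
    simp [tp, BS]
  | insert v W hv ih =>
    intro F
    have hins : ∀ S : Finset V, v ∉ S → ∀ i, tp part (insert v S) i =
        tp part S i + if part v = i then 1 else 0 := by
      intro S hS i
      unfold tp
      rw [Finset.filter_insert]
      split_ifs with h
      · rw [Finset.card_insert_of_notMem (fun h' => hS (Finset.mem_filter.1 h').1)]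
      · rfl
    rw [Finset.sum_powerset_insert hv]
    have h2 : ∀ S ∈ W.powerset, F (tp part (insert v S) 0) (tp part (insert v S) 1)
        (tp part (insert v S) 2) (tp part (insert v S) 3) =
        F (tp part S 0 + if part v = 0 then 1 else 0) (tp part S 1 + if part v = 1 then 1 else 0)
          (tp part S 2 + if part v = 2 then 1 else 0) (tp part S 3 + if part v = 3 then 1 else 0) := by
      intro S hS
      have hvS : v ∉ S := fun h => hv (Finset.mem_powerset.1 hS h)
      rw [hins S hvS, hins S hvS, hins S hvS, hins S hvS]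
    rw [Finset.sum_congr rfl h2, hins W hv, hins W hv, hins W hv, hins W hv]
    have hp' := hp v
    have hcase : part v = 0 ∨ part v = 1 ∨ part v = 2 ∨ part v = 3 := by omega
    rcases hcase with h | h | h | h
    · simp only [h, if_true, Nat.zero_ne_one, if_false, add_zero, show (0 : ℕ) ≠ 2 by norm_num,
        show (0 : ℕ) ≠ 3 by norm_num]
      rw [ih F, ih (fun a b c d => F (a + 1) b c d), BS_succ]
    · simp only [h, if_true, one_ne_zero, if_false, add_zero, show (1 : ℕ) ≠ 2 by norm_num,
        show (1 : ℕ) ≠ 3 by norm_num]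
      rw [ih F, ih (fun a b c d => F a (b + 1) c d), ← BS_add]
      congr 1
      funext a
      rw [BS_succ]
    · simp only [h, if_true, if_false, add_zero, show (2 : ℕ) ≠ 0 by norm_num,
        show (2 : ℕ) ≠ 1 by norm_num, show (2 : ℕ) ≠ 3 by norm_num]
      rw [ih F, ih (fun a b c d => F a b (c + 1) d), ← BS_add]
      congr 1
      funext a
      rw [← BS_add]
      congr 1
      funext b
      rw [BS_succ]
    · simp only [h, if_true, if_false, add_zero, show (3 : ℕ) ≠ 0 by norm_num,
        show (3 : ℕ) ≠ 1 by norm_num, show (3 : ℕ) ≠ 2 by norm_num]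
      rw [ih F, ih (fun a b c d => F a b c (d + 1)), ← BS_add]
      congr 1
      funext a
      rw [← BS_add]
      congr 1
      funext b
      rw [← BS_add]
      congr 1
      funext c
      rw [BS_succ]

end Pool.Agent.Q223.SNP
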