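import Mathlib

/-!
# Branching of Schur polynomials defined by semistandard tableaux
-/

set_option autoImplicit false

namespace Pool.Agent.Q223.SNP

open Finset MvPolynomial
open scoped Classical

/-- tableaux with entries below `k` -/
abbrev Tb (k : ℕ) (μ : YoungDiagram) : Type :=
  {T : SemistandardYoungTableau μ // ∀ p ∈ μ.cells, T p.1 p.2 < k}

instance (k : ℕ) (μ : YoungDiagram) : Finite (Tb k μ) := by
  let f : Tb k μ → (μ.cells → Fin k) := fun T p => ⟨T.1 p.1.1 p.1.2, T.2 p.1 p.2⟩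
  have hf : Function.Injective f := by
    intro T T' h
    apply Subtype.ext
    apply SemistandardYoungTableau.ext
    intro i j
    by_cases hij : (i, j) ∈ μ
    · have := congrFun h ⟨(i, j), hij⟩
      simpa [f] using congrArg Fin.val this
    · rw [T.1.zeros hij, T'.1.zeros hij]
  exact Finite.of_injective f hf

noncomputable instance (k : ℕ) (μ : YoungDiagram) : Fintype (Tb k μ) := Fintype.ofFinite _

/-- weight of a tableau -/
noncomputable def wt {μ : YoungDiagram} (T : SemistandardYoungTableau μ) : MvPolynomial ℕ ℤ :=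
  ∏ p ∈ μ.cells, (X (T p.1 p.2) : MvPolynomial ℕ ℤ)

/-- Schur polynomials in `k` variables -/
noncomputable def schur (k : ℕ) (μ : YoungDiagram) : MvPolynomial ℕ ℤ :=
  ∑ T : Tb k μ, wt T.1

theorem schur_eq_finsum (k : ℕ) (μ : YoungDiagram) :
    (∑ᶠ T : {T : SemistandardYoungTableau μ // ∀ p ∈ μ.cells, T p.1 p.2 < k},
      ∏ p ∈ μ.cells, (X (T.1 p.1 p.2) : MvPolynomial ℕ ℤ)) = schur k μ := by
  rw [finsum_eq_sum_of_fintype]
  rfl

/-- `μ/ν` is a horizontal strip -/
def HS (μ ν : YoungDiagram) : Prop :=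
  ν ≤ μ ∧ ∀ i j, (i, j) ∈ μ → (i, j) ∉ ν → (i + 1, j) ∉ μ

instance (μ : YoungDiagram) : Finite {ν // HS μ ν} := by
  let f : {ν // HS μ ν} → μ.cells.powerset := fun ν =>
    ⟨ν.1.cells, Finset.mem_powerset.2 (YoungDiagram.cells_subset_iff.2 ν.2.1)⟩
  have hf : Function.Injective f := by
    intro a b h
    apply Subtype.ext
    apply YoungDiagram.ext
    exact congrArg Subtype.val h
  exact Finite.of_injective f hf

noncomputable instance (μ : YoungDiagram) : Fintype {ν // HS μ ν} := Fintype.ofFinite _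

theorem mem_of_le {μ ν : YoungDiagram} (h : ν ≤ μ) {i j : ℕ} (hij : (i, j) ∈ ν) : (i, j) ∈ μ := h hij

/-- extension of a tableau by the largest entry -/
def extT {k : ℕ} {μ ν : YoungDiagram} (h : HS μ ν) (T : Tb k ν) : Tb (k + 1) μ :=
  ⟨{ entry := fun i j => if (i, j) ∈ ν then T.1 i j else if (i, j) ∈ μ then k else 0
     row_weak' := by
      intro i j1 j2 hj hm
      by_cases h2 : (i, j2) ∈ ν
      · have h1 : (i, j1) ∈ ν := ν.up_left_mem le_rfl hj.le h2
        rw [if_pos h1, if_pos h2]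
        exact T.1.row_weak hj h2
      · rw [if_neg h2, if_pos hm]
        by_cases h1 : (i, j1) ∈ ν
        · rw [if_pos h1]
          exact (T.2 (i, j1) h1).le
        · rw [if_neg h1, if_pos (μ.up_left_mem le_rfl hj.le hm)]
     col_strict' := by
      intro i1 i2 j hi hm
      by_cases h2 : (i2, j) ∈ ν
      · have h1 : (i1, j) ∈ ν := ν.up_left_mem hi.le le_rfl h2
        rw [if_pos h1, if_pos h2]
        exact T.1.col_strict hi h2
      · rw [if_neg h2, if_pos hm]
        have h1 : (i1, j) ∈ ν := by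
          by_contra h1
          exact h.2 i1 j (μ.up_left_mem hi.le le_rfl hm) h1 (μ.up_left_mem hi le_rfl hm)
        rw [if_pos h1]
        exact T.2 (i1, j) h1
     zeros' := by
      intro i j hm
      have h1 : (i, j) ∉ ν := fun h' => hm (h.1 h')
      rw [if_neg h1, if_neg hm] }, by
    rintro ⟨i, j⟩ hp
    show (if (i, j) ∈ ν then T.1 i j else if (i, j) ∈ μ then k else 0) < k + 1
    split_ifs with h1
    · exact (T.2 (i, j) h1).trans (Nat.lt_succ_self k)
    · exact Nat.lt_succ_self k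
    · exact Nat.succ_pos k⟩

theorem extT_apply {k : ℕ} {μ ν : YoungDiagram} (h : HS μ ν) (T : Tb k ν) (i j : ℕ) :
    (extT h T).1 i j = if (i, j) ∈ ν then T.1 i j else if (i, j) ∈ μ then k else 0 := rfl

theorem mem_iff_ext {k : ℕ} {μ ν : YoungDiagram} (h : HS μ ν) (T : Tb k ν) (i j : ℕ) :
    (i, j) ∈ ν ↔ (i, j) ∈ μ ∧ (extT h T).1 i j < k := by
  rw [extT_apply]
  constructor
  · intro h1
    refine ⟨h.1 h1, ?_⟩
    rw [if_pos h1]
    exact T.2 (i, j) h1
  · rintro ⟨h1, h2⟩
    by_contra h3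
    rw [if_neg h3, if_pos h1] at h2
    exact lt_irrefl _ h2

theorem wt_ext {k : ℕ} {μ ν : YoungDiagram} (h : HS μ ν) (T : Tb k ν) :
    wt (extT h T).1 = wt T.1 * X k ^ (μ.card - ν.card) := by
  have hsub : ν.cells ⊆ μ.cells := YoungDiagram.cells_subset_iff.2 h.1
  unfold wt
  rw [← Finset.prod_sdiff hsub, mul_comm]
  congr 1
  · apply Finset.prod_congr rfl
    rintro ⟨i, j⟩ hp
    have hp' : (i, j) ∈ ν := hp
    rw [extT_apply, if_pos hp']
  · rw [YoungDiagram.card, YoungDiagram.card, ← Finset.card_sdiff_of_subset hsub,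
      ← Finset.prod_const]
    apply Finset.prod_congr rfl
    rintro ⟨i, j⟩ hp
    rw [Finset.mem_sdiff] at hp
    have h1 : (i, j) ∉ ν := hp.2
    have h2 : (i, j) ∈ μ := hp.1
    rw [extT_apply, if_neg h1, if_pos h2]

/-- the shape of the entries below `k` -/
def low {k : ℕ} {μ : YoungDiagram} (T : Tb (k + 1) μ) : YoungDiagram where
  cells := μ.cells.filter fun p => T.1 p.1 p.2 < k
  isLowerSet := by
    rintro ⟨i, j⟩ ⟨i', j'⟩ ⟨hi, hj⟩ hp
    rw [Finset.mem_coe, Finset.mem_filter] at hp ⊢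
    have h1 : (i, j) ∈ μ := hp.1
    have hi' : i' ≤ i := hi
    have hj' : j' ≤ j := hj
    refine ⟨μ.up_left_mem hi' hj' h1, ?_⟩
    calc T.1 i' j' ≤ T.1 i' j := T.1.row_weak_of_le hj' (μ.up_left_mem hi' le_rfl h1)
      _ ≤ T.1 i j := T.1.col_weak hi' h1
      _ < k := hp.2

theorem mem_low {k : ℕ} {μ : YoungDiagram} (T : Tb (k + 1) μ) (i j : ℕ) :
    (i, j) ∈ low T ↔ (i, j) ∈ μ ∧ T.1 i j < k := by
  show (i, j) ∈ (low T).cells ↔ _
  simp only [low, Finset.mem_filter, YoungDiagram.mem_cells]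

theorem low_hs {k : ℕ} {μ : YoungDiagram} (T : Tb (k + 1) μ) : HS μ (low T) := by
  refine ⟨?_, ?_⟩
  · rintro ⟨i, j⟩ h
    exact ((mem_low T i j).1 h).1
  · intro i j h1 h2 h3
    have h4 : k ≤ T.1 i j := by
      by_contra h
      exact h2 ((mem_low T i j).2 ⟨h1, not_le.1 h⟩)
    have h5 := T.1.col_strict (Nat.lt_succ_self i) h3
    have h6 := T.2 (i + 1, j) h3
    have h7 : T.1 (i + 1) j < k + 1 := h6
    have h8 : T.1 i j < T.1 (i + 1) j := h5
    omega

/-- restriction -/
def resT {k : ℕ} {μ : YoungDiagram} (T : Tb (k + 1) μ) : Tb k (low T) :=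
  ⟨{ entry := fun i j => if (i, j) ∈ low T then T.1 i j else 0
     row_weak' := by
      intro i j1 j2 hj hm
      have h1 : (i, j1) ∈ low T := (low T).up_left_mem le_rfl hj.le hm
      rw [if_pos h1, if_pos hm]
      exact T.1.row_weak hj ((mem_low T _ _).1 hm).1
     col_strict' := by
      intro i1 i2 j hi hm
      have h1 : (i1, j) ∈ low T := (low T).up_left_mem hi.le le_rfl hm
      rw [if_pos h1, if_pos hm]
      exact T.1.col_strict hi ((mem_low T _ _).1 hm).1
     zeros' := by
      intro i j hm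
      rw [if_neg hm] }, by
    rintro ⟨i, j⟩ hp
    have hp' : (i, j) ∈ low T := hp
    show (if (i, j) ∈ low T then T.1 i j else 0) < k
    rw [if_pos hp']
    exact ((mem_low T i j).1 hp').2⟩

theorem ext_res {k : ℕ} {μ : YoungDiagram} (T : Tb (k + 1) μ) : extT (low_hs T) (resT T) = T := by
  apply Subtype.ext
  apply SemistandardYoungTableau.ext
  intro i j
  rw [extT_apply]
  by_cases h : (i, j) ∈ low T
  · rw [if_pos h]
    show (if (i, j) ∈ low T then T.1 i j else 0) = _
    rw [if_pos h]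
  · rw [if_neg h]
    by_cases hm : (i, j) ∈ μ
    · rw [if_pos hm]
      have h1 : k ≤ T.1 i j := by
        by_contra h'
        exact h ((mem_low T i j).2 ⟨hm, not_le.1 h'⟩)
      have h2 : T.1 i j < k + 1 := T.2 (i, j) hm
      omega
    · rw [if_neg hm, T.1.zeros hm]

/-- branching rule -/
theorem schur_succ (k : ℕ) (μ : YoungDiagram) :
    schur (k + 1) μ = ∑ ν : {ν // HS μ ν}, schur k ν.1 * X k ^ (μ.card - ν.1.card) := by
  have hbij : Function.Bijective
      (fun x : (Σ ν : {ν // HS μ ν}, Tb k ν.1) => extT x.1.2 x.2) := by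
    constructor
    · rintro ⟨⟨ν, hν⟩, T⟩ ⟨⟨ν', hν'⟩, T'⟩ h
      have h' : extT hν T = extT hν' T' := h
      have e : ν = ν' := by
        apply YoungDiagram.ext
        ext ⟨i, j⟩
        have h1 := mem_iff_ext hν T i j
        have h2 := mem_iff_ext hν' T' i j
        rw [h'] at h1
        exact h1.trans h2.symm
      subst e
      congr 1
      apply Subtype.ext
      apply SemistandardYoungTableau.ext
      intro i j
      by_cases hij : (i, j) ∈ ν
      · have h1 := extT_apply hν T i j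
        have h2 := extT_apply hν' T' i j
        rw [if_pos hij] at h1 h2
        rw [← h1, ← h2, h']
      · rw [T.1.zeros hij, T'.1.zeros hij]
    · intro T
      exact ⟨⟨⟨low T, low_hs T⟩, resT T⟩, ext_res T⟩
  unfold schur
  rw [← hbij.sum_comp (fun T => wt T.1), Fintype.sum_sigma]
  apply Finset.sum_congr rfl
  intro ν _
  rw [Finset.sum_mul]
  apply Finset.sum_congr rfl
  intro T _
  exact wt_ext ν.2 T

theorem schur_zero_bot : schur 0 ⊥ = 1 := by
  unfold schur
  have hT : ∀ T : Tb 0 ⊥, T = ⟨SemistandardYoungTableau.highestWeight ⊥, by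
      rintro p hp; simp at hp⟩ := by
    intro T
    apply Subtype.ext
    apply SemistandardYoungTableau.ext
    intro i j
    rw [T.1.zeros (YoungDiagram.notMem_bot _), SemistandardYoungTableau.zeros _
      (YoungDiagram.notMem_bot _)]
  have : Unique (Tb 0 ⊥) := ⟨⟨_⟩, hT⟩
  rw [Fintype.sum_unique]
  unfold wt
  simp

theorem schur_zero_of_ne {μ : YoungDiagram} (h : μ ≠ ⊥) : schur 0 μ = 0 := by
  unfold schur
  have : IsEmpty (Tb 0 μ) := by
    constructor
    intro T
    have h1 : μ.cells.Nonempty := by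
      rw [Finset.nonempty_iff_ne_empty]
      intro h2
      apply h
      apply YoungDiagram.ext
      rw [h2, YoungDiagram.cells_bot]
    obtain ⟨p, hp⟩ := h1
    exact absurd (T.2 p hp) (Nat.not_lt_zero _)
  exact Fintype.sum_empty _

end Pool.Agent.Q223.SNP
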