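import Mathlib
import Pool.Agent.Q223.SNP.Ssyt

/-!
# Coding partitions by numbers in base 16
-/

set_option autoImplicit false

namespace Pool.Agent.Q223.SNP

open Finset MvPolynomial
open scoped Classical

/-- digits in base 16 -/
def dig : ℕ → ℕ → ℕ
  | 0, w => w % 16
  | i + 1, w => dig i (w / 16)

/-- encoding -/
def enc : ℕ → (ℕ → ℕ) → ℕ
  | 0, _ => 0
  | n + 1, f => f 0 + 16 * enc n (fun i => f (i + 1))

/-- weakly decreasing digits -/
def Val (w : ℕ) : Prop := ∀ i, dig (i + 1) w ≤ dig i w

/-- horizontal strips below `w` -/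
def hs : ℕ → ℕ → List ℕ
  | 0, _ => [0]
  | n + 1, w => if w = 0 then [0] else (hs n (w / 16)).flatMap fun y =>
      (List.range' (w / 16 % 16) (w % 16 + 1 - w / 16 % 16)).map fun x => x + 16 * y

/-- sum of the digits -/
def sz : ℕ → ℕ → ℕ
  | 0, _ => 0
  | n + 1, w => w % 16 + sz n (w / 16)

/-- validity check -/
def val : ℕ → ℕ → Bool
  | 0, w => w == 0
  | n + 1, w => Nat.ble (w / 16 % 16) (w % 16) && val n (w / 16)

theorem dig_lt (i w : ℕ) : dig i w < 16 := by
  induction i generalizing w with
  | zero => exact Nat.mod_lt _ (by norm_num)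
  | succ i ih => exact ih _

theorem dig_zero (i : ℕ) : dig i 0 = 0 := by
  induction i with
  | zero => rfl
  | succ i ih => exact ih

theorem dig_big {n : ℕ} : ∀ {w : ℕ}, w < 16 ^ n → ∀ i, n ≤ i → dig i w = 0 := by
  induction n with
  | zero =>
    intro w hw i _
    have : w = 0 := by simpa using hw
    rw [this]; exact dig_zero i
  | succ n ih =>
    intro w hw i hi
    obtain ⟨j, rfl⟩ : ∃ j, i = j + 1 := ⟨i - 1, by omega⟩
    have : w / 16 < 16 ^ n := by
      rw [Nat.div_lt_iff_lt_mul (by norm_num), ← pow_succ]; exact hw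
    exact ih this j (by omega)

theorem dig_inj {n : ℕ} : ∀ {w w' : ℕ}, w < 16 ^ n → w' < 16 ^ n → (∀ i, dig i w = dig i w') →
    w = w' := by
  induction n with
  | zero =>
    intro w w' h h' _
    have h1 : w = 0 := by simpa using h
    have h2 : w' = 0 := by simpa using h'
    rw [h1, h2]
  | succ n ih =>
    intro w w' h h' hd
    have h1 : w / 16 < 16 ^ n := by
      rw [Nat.div_lt_iff_lt_mul (by norm_num), ← pow_succ]; exact h
    have h2 : w' / 16 < 16 ^ n := by
      rw [Nat.div_lt_iff_lt_mul (by norm_num), ← pow_succ]; exact h'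
    have h3 := ih h1 h2 (fun i => hd (i + 1))
    have h4 : w % 16 = w' % 16 := hd 0
    omega

theorem dig_enc {n : ℕ} : ∀ {f : ℕ → ℕ}, (∀ i, f i < 16) → (∀ i, n ≤ i → f i = 0) →
    enc n f < 16 ^ n ∧ ∀ i, dig i (enc n f) = f i := by
  induction n with
  | zero =>
    intro f _ h0
    refine ⟨by simp [enc], fun i => ?_⟩
    rw [h0 i (Nat.zero_le _)]
    exact dig_zero i
  | succ n ih =>
    intro f hf h0
    obtain ⟨h1, h2⟩ := ih (f := fun i => f (i + 1)) (fun i => hf _) (fun i hi => h0 _ (by omega))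
    have hf0 := hf 0
    refine ⟨?_, fun i => ?_⟩
    · show f 0 + 16 * enc n (fun i => f (i + 1)) < 16 ^ (n + 1)
      rw [pow_succ]
      omega
    · cases i with
      | zero =>
        show (f 0 + 16 * enc n (fun i => f (i + 1))) % 16 = f 0
        omega
      | succ i =>
        show dig i ((f 0 + 16 * enc n (fun i => f (i + 1))) / 16) = f (i + 1)
        have : (f 0 + 16 * enc n (fun i => f (i + 1))) / 16 = enc n (fun i => f (i + 1)) := by omega
        rw [this]
        exact h2 i

theorem mem_hs {n : ℕ} : ∀ {w y : ℕ}, w < 16 ^ n →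
    (y ∈ hs n w ↔ y < 16 ^ n ∧ ∀ i, dig (i + 1) w ≤ dig i y ∧ dig i y ≤ dig i w) := by
  induction n with
  | zero =>
    intro w y hw
    have hw0 : w = 0 := by simpa using hw
    subst hw0
    show y ∈ [0] ↔ _
    rw [List.mem_singleton]
    constructor
    · rintro rfl
      exact ⟨by norm_num, fun i => ⟨by rw [dig_zero, dig_zero], le_rfl⟩⟩
    · rintro ⟨h, -⟩
      simpa using h
  | succ n ih =>
    intro w y hw
    by_cases hw0 : w = 0
    · subst hw0
      have : hs (n + 1) 0 = [0] := rfl
      rw [this, List.mem_singleton]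
      constructor
      · rintro rfl
        exact ⟨by positivity, fun i => ⟨by rw [dig_zero, dig_zero], le_rfl⟩⟩
      · rintro ⟨h, h'⟩
        refine dig_inj h (by positivity) (fun i => ?_)
        have := (h' i).2
        rw [dig_zero] at this ⊢
        omega
    · have hw1 : w / 16 < 16 ^ n := by
        rw [Nat.div_lt_iff_lt_mul (by norm_num), ← pow_succ]; exact hw
      have e : hs (n + 1) w = (hs n (w / 16)).flatMap fun y =>
          (List.range' (w / 16 % 16) (w % 16 + 1 - w / 16 % 16)).map fun x => x + 16 * y := by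
        show (if w = 0 then [0] else _) = _
        rw [if_neg hw0]
      rw [e, List.mem_flatMap]
      constructor
      · rintro ⟨y', hy', hx⟩
        rw [List.mem_map] at hx
        obtain ⟨x, hx, rfl⟩ := hx
        rw [List.mem_range'_1] at hx
        obtain ⟨h1, h2⟩ := (ih hw1).1 hy'
        have hx16 : x < 16 := by
          have := Nat.mod_lt w (show 0 < 16 by norm_num)
          omega
        refine ⟨?_, fun i => ?_⟩
        · rw [pow_succ]; omega
        · cases i with
          | zero =>
            show w / 16 % 16 ≤ (x + 16 * y') % 16 ∧ (x + 16 * y') % 16 ≤ w % 16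
            omega
          | succ i =>
            show dig (i + 1) (w / 16) ≤ dig i ((x + 16 * y') / 16) ∧
              dig i ((x + 16 * y') / 16) ≤ dig i (w / 16)
            have : (x + 16 * y') / 16 = y' := by omega
            rw [this]
            exact h2 i
      · rintro ⟨h1, h2⟩
        have hy1 : y / 16 < 16 ^ n := by
          rw [Nat.div_lt_iff_lt_mul (by norm_num), ← pow_succ]; exact h1
        refine ⟨y / 16, (ih hw1).2 ⟨hy1, fun i => h2 (i + 1)⟩, ?_⟩
        rw [List.mem_map]
        have h3 : w / 16 % 16 ≤ y % 16 ∧ y % 16 ≤ w % 16 := h2 0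
        refine ⟨y % 16, ?_, by omega⟩
        rw [List.mem_range'_1]
        omega

theorem nodup_hs {n : ℕ} : ∀ {w : ℕ}, (hs n w).Nodup := by
  induction n with
  | zero => intro w; exact List.nodup_singleton 0
  | succ n ih =>
    intro w
    by_cases hw0 : w = 0
    · subst hw0
      exact List.nodup_singleton 0
    · have e : hs (n + 1) w = (hs n (w / 16)).flatMap fun y =>
          (List.range' (w / 16 % 16) (w % 16 + 1 - w / 16 % 16)).map fun x => x + 16 * y := by
        show (if w = 0 then [0] else _) = _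
        rw [if_neg hw0]
      rw [e, List.nodup_flatMap]
      refine ⟨fun y _ => ?_, ?_⟩
      · apply List.Nodup.map
        · intro a b h
          have h' : a + 16 * y = b + 16 * y := h
          omega
        · exact List.nodup_range' 
      · refine (ih (w := w / 16)).imp_of_mem ?_
        intro a b _ _ hab
        rw [Function.onFun, List.disjoint_left]
        intro z hz hz'
        rw [List.mem_map] at hz hz'
        obtain ⟨x, hx, rfl⟩ := hz
        obtain ⟨x', hx', h⟩ := hz'
        rw [List.mem_range'_1] at hx hx'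
        have := Nat.mod_lt w (show 0 < 16 by norm_num)
        apply hab
        omega

/-- the diagram of a code -/
def D (w : ℕ) : YoungDiagram where
  cells := ((range 16) ×ˢ (range 16)).filter fun p => ∀ i' ≤ p.1, p.2 < dig i' w
  isLowerSet := by
    rintro ⟨i, j⟩ ⟨i', j'⟩ ⟨hi, hj⟩ hp
    rw [Finset.mem_coe, Finset.mem_filter, Finset.mem_product, Finset.mem_range,
      Finset.mem_range] at hp ⊢
    have hi' : i' ≤ i := hi
    have hj' : j' ≤ j := hj
    obtain ⟨⟨h1, h2⟩, h3⟩ := hp
    refine ⟨⟨lt_of_le_of_lt hi' h1, lt_of_le_of_lt hj' h2⟩, fun a ha => ?_⟩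
    exact lt_of_le_of_lt hj' (h3 a (le_trans ha hi'))

theorem Val.anti {w : ℕ} (h : Val w) {i i' : ℕ} (hi : i' ≤ i) : dig i w ≤ dig i' w :=
  antitone_nat_of_succ_le (f := fun i => dig i w) h hi

theorem mem_D {w : ℕ} (hv : Val w) (hb : w < 16 ^ 16) {i j : ℕ} : (i, j) ∈ D w ↔ j < dig i w := by
  show (i, j) ∈ (D w).cells ↔ _
  simp only [D, Finset.mem_filter, Finset.mem_product, Finset.mem_range]
  constructor
  · rintro ⟨-, h⟩
    exact h i le_rfl
  · intro h
    refine ⟨⟨?_, lt_trans h (dig_lt i w)⟩, fun a ha => lt_of_lt_of_le h (hv.anti ha)⟩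
    by_contra hi
    rw [dig_big hb i (not_lt.1 hi)] at h
    exact Nat.not_lt_zero _ h

theorem card_D {w : ℕ} (hv : Val w) (hb : w < 16 ^ 16) : (D w).card = ∑ i ∈ range 16, dig i w := by
  have h1 : (D w).cells = ((range 16) ×ˢ (range 16)).filter fun p => p.2 < dig p.1 w := by
    ext ⟨i, j⟩
    rw [YoungDiagram.mem_cells, mem_D hv hb, Finset.mem_filter, Finset.mem_product,
      Finset.mem_range, Finset.mem_range]
    constructor
    · intro h
      refine ⟨⟨?_, lt_trans h (dig_lt i w)⟩, h⟩
      by_contra hi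
      rw [dig_big hb i (not_lt.1 hi)] at h
      exact Nat.not_lt_zero _ h
    · exact fun h => h.2
  rw [YoungDiagram.card, h1, Finset.card_filter, Finset.sum_product]
  apply Finset.sum_congr rfl
  intro i _
  rw [← Finset.card_filter]
  have : (range 16).filter (fun j => j < dig i w) = range (dig i w) := by
    ext j
    rw [Finset.mem_filter, Finset.mem_range, Finset.mem_range]
    exact ⟨fun h => h.2, fun h => ⟨lt_trans h (dig_lt i w), h⟩⟩
  show ((range 16).filter (fun j => j < dig i w)).card = _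
  rw [this, Finset.card_range]

theorem sz_eq (n w : ℕ) : sz n w = ∑ i ∈ range n, dig i w := by
  induction n generalizing w with
  | zero => rfl
  | succ n ih =>
    rw [Finset.sum_range_succ']
    show w % 16 + sz n (w / 16) = _
    rw [ih, add_comm]
    rfl

theorem val_spec {n : ℕ} : ∀ {w : ℕ}, val n w = true → Val w ∧ w < 16 ^ n := by
  induction n with
  | zero =>
    intro w h
    have : w = 0 := by simpa [val] using h
    subst this
    exact ⟨fun i => by rw [dig_zero, dig_zero], by norm_num⟩
  | succ n ih =>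
    intro w h
    simp only [val, Bool.and_eq_true, Nat.ble_eq] at h
    obtain ⟨h1, h2⟩ := ih h.2
    refine ⟨fun i => ?_, ?_⟩
    · cases i with
      | zero => exact h.1
      | succ i => exact h1 i
    · rw [pow_succ]; omega

theorem hs_sum {n w : ℕ} (hn : n ≤ 16) (hv : Val w) (hb : w < 16 ^ n)
    (f : YoungDiagram → MvPolynomial ℕ ℤ) :
    ∑ ν : {ν // HS (D w) ν}, f ν.1 = ((hs n w).map fun y => f (D y)).sum := by
  have hb16 : w < 16 ^ 16 := lt_of_lt_of_le hb (Nat.pow_le_pow_right (by norm_num) hn)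
  have hy : ∀ y ∈ hs n w, Val y ∧ y < 16 ^ 16 ∧ y < 16 ^ n := by
    intro y hy
    obtain ⟨h1, h2⟩ := (mem_hs hb).1 hy
    exact ⟨fun i => (h2 (i + 1)).2.trans (h2 i).1,
      lt_of_lt_of_le h1 (Nat.pow_le_pow_right (by norm_num) hn), h1⟩
  rw [← List.sum_toFinset _ nodup_hs]
  symm
  refine Finset.sum_bij (fun y hy' => ⟨D y, ?_⟩) ?_ ?_ ?_ ?_
  · rw [List.mem_toFinset] at hy'
    obtain ⟨h1, h2, h3⟩ := hy y hy'
    have h4 := ((mem_hs hb).1 hy').2
    refine ⟨?_, ?_⟩
    · rintro ⟨i, j⟩ hij
      have h5 : (i, j) ∈ D y := hij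
      rw [mem_D h1 h2] at h5
      show (i, j) ∈ D w
      rw [mem_D hv hb16]
      exact lt_of_lt_of_le h5 (h4 i).2
    · intro i j hij hij' hij''
      rw [mem_D hv hb16] at hij hij''
      rw [mem_D h1 h2] at hij'
      have := (h4 i).1
      omega
  · intro y _
    exact Finset.mem_univ _
  · intro y hy' z hz' h
    rw [List.mem_toFinset] at hy' hz'
    obtain ⟨h1, h2, h3⟩ := hy y hy'
    obtain ⟨h4, h5, h6⟩ := hy z hz'
    have h' : D y = D z := congrArg Subtype.val h
    refine dig_inj h2 h5 (fun i => ?_)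
    by_contra hne
    rcases lt_or_gt_of_ne hne with hlt | hlt
    · have : (i, dig i y) ∈ D z := (mem_D h4 h5).2 hlt
      rw [← h', mem_D h1 h2] at this
      exact lt_irrefl _ this
    · have : (i, dig i z) ∈ D y := (mem_D h1 h2).2 hlt
      rw [h', mem_D h4 h5] at this
      exact lt_irrefl _ this
  · rintro ⟨ν, hν⟩ _
    have hle : ∀ i, ν.rowLen i ≤ dig i w := by
      intro i
      by_contra h
      have h1 : (i, dig i w) ∈ ν := YoungDiagram.mem_iff_lt_rowLen.2 (not_le.1 h)
      have h2 := hν.1 h1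
      have h3 : (i, dig i w) ∈ D w := h2
      rw [mem_D hv hb16] at h3
      exact lt_irrefl _ h3
    have hge : ∀ i, dig (i + 1) w ≤ ν.rowLen i := by
      intro i
      by_contra h
      have h1 : (i + 1, ν.rowLen i) ∈ D w := (mem_D hv hb16).2 (not_le.1 h)
      have h2 : (i, ν.rowLen i) ∈ D w := (D w).up_left_mem (Nat.le_succ i) le_rfl h1
      have h3 : (i, ν.rowLen i) ∉ ν := by
        rw [YoungDiagram.mem_iff_lt_rowLen]; exact lt_irrefl _
      exact hν.2 i _ h2 h3 h1
    obtain ⟨e1, e2⟩ := dig_enc (n := n) (f := fun i => ν.rowLen i)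
      (fun i => lt_of_le_of_lt (hle i) (dig_lt i w))
      (fun i hi => Nat.le_zero.1 ((hle i).trans (dig_big hb i hi).le))
    have hmem : enc n (fun i => ν.rowLen i) ∈ hs n w := by
      rw [mem_hs hb]
      refine ⟨e1, fun i => ?_⟩
      rw [e2 i]
      exact ⟨hge i, hle i⟩
    refine ⟨enc n (fun i => ν.rowLen i), List.mem_toFinset.2 hmem, ?_⟩
    apply Subtype.ext
    obtain ⟨h1, h2, h3⟩ := hy _ hmem
    apply YoungDiagram.ext
    ext ⟨i, j⟩
    rw [YoungDiagram.mem_cells, YoungDiagram.mem_cells, mem_D h1 h2, e2 i,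
      YoungDiagram.mem_iff_lt_rowLen]
  · intro y _
    rfl

theorem schur_code {n w : ℕ} (hn : n ≤ 16) (hv : Val w) (hb : w < 16 ^ n) (k : ℕ) :
    schur (k + 1) (D w) =
      ((hs n w).map fun y => schur k (D y) * X k ^ ((D w).card - (D y).card)).sum := by
  rw [schur_succ]
  exact hs_sum hn hv hb (fun ν => schur k ν * X k ^ ((D w).card - ν.card))

theorem schur_code_zero {w : ℕ} (hv : Val w) (hb : w < 16 ^ 16) :
    schur 0 (D w) = if w = 0 then 1 else 0 := by
  by_cases h : w = 0
  · rw [if_pos h]
    have : D w = ⊥ := by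
      apply YoungDiagram.ext
      ext ⟨i, j⟩
      rw [YoungDiagram.mem_cells, mem_D hv hb, h, dig_zero]
      simp
    rw [this, schur_zero_bot]
  · rw [if_neg h]
    apply schur_zero_of_ne
    intro hD
    apply h
    refine dig_inj hb (by positivity) (fun i => ?_)
    rw [dig_zero]
    by_contra hne
    have h1 : (i, 0) ∈ D w := (mem_D hv hb).2 (Nat.pos_of_ne_zero hne)
    rw [hD] at h1
    exact YoungDiagram.notMem_bot _ h1

end Pool.Agent.Q223.SNP
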