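import Mathlib
import Pool.Agent.Q223.SNP.Tab
import Pool.Agent.Q223.SNP.Code
import Pool.Agent.Q223.SNP.Chrom

/-!
# The verification of the table
-/

set_option autoImplicit false

namespace Pool.Agent.Q223.SNP

/-- addition of formal sums -/
def madd : ℕ → List (ℕ × ℤ) → List (ℕ × ℤ) → List (ℕ × ℤ)
  | 0, l, l' => l ++ l'
  | _ + 1, [], l' => l'
  | _ + 1, l, [] => l
  | n + 1, (x, a) :: l, (y, b) :: l' =>
    bif Nat.blt x y then (x, a) :: madd n l ((y, b) :: l')
    else bif Nat.blt y x then (y, b) :: madd n ((x, a) :: l) l'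
    else (x, a + b) :: madd n l l'

/-- multiplication by an integer -/
def scale (m : ℤ) (l : List (ℕ × ℤ)) : List (ℕ × ℤ) := l.map fun p => (p.1, m * p.2)

/-- stability of a set with the given numbers of elements in the four parts -/
def stb (a b c d : ℕ) : Bool := (a == 0 || b == 0) && (b == 0 || c == 0) && (c == 0 || d == 0)

/-- removal of a stable set -/
def pieces (a b c d : ℕ) : List (List (ℕ × ℤ)) :=
  (List.range (a + 1)).flatMap fun a' => (List.range (b + 1)).flatMap fun b' =>
    (List.range (c + 1)).flatMap fun c' => (List.range (d + 1)).flatMap fun d' =>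
      if stb a' b' c' d' then
        [scale ((a.choose a' * (b.choose b' * (c.choose c' * d.choose d')) : ℕ) : ℤ)
          (tab (a - a') (b - b') (c - c') (d - d'))]
      else []

/-- the pieces with the other sign -/
def pieces' (a b c d : ℕ) : List (List (ℕ × ℤ)) :=
  (tab a b c d).map fun p => (hs 13 p.1).map fun y => (y, -p.2)

/-- the check -/
def chk (a b c d : ℕ) : Bool :=
  ((pieces' a b c d).foldl (madd 400) ((pieces a b c d).foldl (madd 400) [])).all
    (fun p => p.2 == 0) &&
  (tab a b c d).all (fun p => val 13 p.1 && (sz 13 p.1 == a + b + c + d))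

section Spec

variable {M : Type} [AddCommGroup M]

/-- evaluation of a formal sum -/
def ev (φ : ℕ → M) (l : List (ℕ × ℤ)) : M := (l.map fun p => p.2 • φ p.1).sum

theorem ev_nil (φ : ℕ → M) : ev φ [] = 0 := rfl

theorem ev_cons (φ : ℕ → M) (x : ℕ) (a : ℤ) (l : List (ℕ × ℤ)) :
    ev φ ((x, a) :: l) = a • φ x + ev φ l := by
  simp [ev]

theorem ev_append (φ : ℕ → M) (l l' : List (ℕ × ℤ)) : ev φ (l ++ l') = ev φ l + ev φ l' := by
  simp [ev]

theorem ev_madd (φ : ℕ → M) (n : ℕ) : ∀ l l' : List (ℕ × ℤ),
    ev φ (madd n l l') = ev φ l + ev φ l' := by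
  induction n with
  | zero => intro l l'; exact ev_append φ l l'
  | succ n ih =>
    intro l l'
    cases l with
    | nil =>
      show ev φ l' = _
      rw [ev_nil, zero_add]
    | cons p l =>
      cases l' with
      | nil =>
        show ev φ (p :: l) = _
        rw [ev_nil, add_zero]
      | cons q l' =>
        obtain ⟨x, a⟩ := p
        obtain ⟨y, b⟩ := q
        show ev φ (bif Nat.blt x y then (x, a) :: madd n l ((y, b) :: l')
          else bif Nat.blt y x then (y, b) :: madd n ((x, a) :: l) l'
          else (x, a + b) :: madd n l l') = _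
        cases h1 : Nat.blt x y with
        | true =>
          show ev φ ((x, a) :: madd n l ((y, b) :: l')) = _
          rw [ev_cons, ih, ev_cons φ x, add_assoc]
        | false =>
          cases h2 : Nat.blt y x with
          | true =>
            show ev φ ((y, b) :: madd n ((x, a) :: l) l') = _
            rw [ev_cons, ih, ev_cons φ y]
            abel
          | false =>
            show ev φ ((x, a + b) :: madd n l l') = _
            have hxy : x = y := by
              have h3 : ¬ x < y := by
                intro h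
                rw [← Nat.blt_eq] at h
                rw [h] at h1
                exact absurd h1 (by decide)
              have h4 : ¬ y < x := by
                intro h
                rw [← Nat.blt_eq] at h
                rw [h] at h2
                exact absurd h2 (by decide)
              omega
            subst hxy
            rw [ev_cons, ih, ev_cons φ x, ev_cons φ x, add_smul]
            abel

theorem ev_scale (φ : ℕ → M) (m : ℤ) (l : List (ℕ × ℤ)) : ev φ (scale m l) = m • ev φ l := by
  induction l with
  | nil => simp [scale, ev]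
  | cons p l ih =>
    obtain ⟨x, a⟩ := p
    show ev φ ((x, m * a) :: scale m l) = _
    rw [ev_cons, ih, ev_cons, smul_add, mul_smul]

/-- evaluation of a list of formal sums -/
def evs (φ : ℕ → M) (L : List (List (ℕ × ℤ))) : M := (L.map (ev φ)).sum

theorem ev_foldl (φ : ℕ → M) (n : ℕ) (L : List (List (ℕ × ℤ))) : ∀ acc : List (ℕ × ℤ),
    ev φ (L.foldl (madd n) acc) = ev φ acc + evs φ L := by
  induction L with
  | nil => intro acc; simp [evs]
  | cons l L ih =>
    intro acc
    show ev φ (L.foldl (madd n) (madd n acc l)) = _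
    rw [ih, ev_madd]
    simp [evs, add_assoc]

theorem evs_flatMap {α : Type} (φ : ℕ → M) (L : List α) (g : α → List (List (ℕ × ℤ))) :
    evs φ (L.flatMap g) = (L.map fun x => evs φ (g x)).sum := by
  induction L with
  | nil => simp [evs]
  | cons x L ih =>
    rw [List.flatMap_cons, List.map_cons, List.sum_cons, ← ih]
    simp [evs]

theorem ev_zero (φ : ℕ → M) (l : List (ℕ × ℤ)) (h : l.all (fun p => p.2 == 0) = true) :
    ev φ l = 0 := by
  induction l with
  | nil => rfl
  | cons p l ih =>
    obtain ⟨x, a⟩ := p
    rw [List.all_cons, Bool.and_eq_true] at h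
    have h1 : a = 0 := by simpa using h.1
    rw [ev_cons, ih h.2, h1, zero_smul, add_zero]

theorem sum_range_list (n : ℕ) (f : ℕ → M) : ∑ a ∈ Finset.range n, f a = ((List.range n).map f).sum :=
  rfl

theorem evs_pieces (φ : ℕ → M) (a b c d : ℕ) : evs φ (pieces a b c d) =
    BS a fun a' => BS b fun b' => BS c fun c' => BS d fun d' =>
      if stb a' b' c' d' then ev φ (tab (a - a') (b - b') (c - c') (d - d')) else 0 := by
  unfold pieces
  simp only [evs_flatMap, ← sum_range_list]
  unfold BS
  apply Finset.sum_congr rfl
  intro a' _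
  rw [Finset.smul_sum]
  apply Finset.sum_congr rfl
  intro b' _
  rw [Finset.smul_sum, Finset.smul_sum]
  apply Finset.sum_congr rfl
  intro c' _
  rw [Finset.smul_sum, Finset.smul_sum, Finset.smul_sum]
  apply Finset.sum_congr rfl
  intro d' _
  beta_reduce
  split_ifs with h
  · have : evs φ [scale ((a.choose a' * (b.choose b' * (c.choose c' * d.choose d')) : ℕ) : ℤ)
        (tab (a - a') (b - b') (c - c') (d - d'))] = ev φ (scale ((a.choose a' *
          (b.choose b' * (c.choose c' * d.choose d')) : ℕ) : ℤ)
        (tab (a - a') (b - b') (c - c') (d - d'))) := by simp [evs]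
    rw [this, ev_scale, natCast_zsmul, mul_smul, mul_smul, mul_smul]
  · simp [evs]

theorem evs_pieces' (φ : ℕ → M) (a b c d : ℕ) : evs φ (pieces' a b c d) =
    - ev (fun w => ((hs 13 w).map φ).sum) (tab a b c d) := by
  unfold pieces'
  generalize tab a b c d = l
  induction l with
  | nil => simp [evs, ev]
  | cons p l ih =>
    obtain ⟨w, x⟩ := p
    rw [List.map_cons]
    have h1 : evs φ ((((hs 13 w).map fun y => (y, -x))) ::
        (l.map fun p => (hs 13 p.1).map fun y => (y, -p.2))) =
        ev φ ((hs 13 w).map fun y => (y, -x)) +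
          evs φ (l.map fun p => (hs 13 p.1).map fun y => (y, -p.2)) := by
      simp [evs]
    rw [h1, ih, ev_cons, neg_add]
    congr 1
    generalize hs 13 w = L
    induction L with
    | nil => simp [ev]
    | cons y L ih2 =>
      rw [List.map_cons, ev_cons, ih2, List.map_cons, List.sum_cons, smul_add, neg_add, neg_smul]

theorem chk_spec {a b c d : ℕ} (h : chk a b c d = true) (φ : ℕ → M) :
    (BS a fun a' => BS b fun b' => BS c fun c' => BS d fun d' =>
      if stb a' b' c' d' then ev φ (tab (a - a') (b - b') (c - c') (d - d')) else 0) =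
    ev (fun w => ((hs 13 w).map φ).sum) (tab a b c d) := by
  unfold chk at h
  rw [Bool.and_eq_true] at h
  have h1 := ev_zero φ _ h.1
  rw [ev_foldl, ev_foldl, ev_nil, zero_add, evs_pieces, evs_pieces'] at h1
  rw [← sub_eq_zero, sub_eq_add_neg]
  exact h1

theorem chk_val {a b c d : ℕ} (h : chk a b c d = true) : ∀ p ∈ tab a b c d,
    Val p.1 ∧ p.1 < 16 ^ 13 ∧ (D p.1).card = a + b + c + d := by
  unfold chk at h
  rw [Bool.and_eq_true] at h
  have h' := h.2
  rw [List.all_eq_true] at h'
  intro p hp
  have h1 := h' p hp
  rw [Bool.and_eq_true] at h1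
  obtain ⟨h2, h3⟩ := val_spec h1.1
  refine ⟨h2, h3, ?_⟩
  have h4 : sz 13 p.1 = a + b + c + d := by simpa using h1.2
  rw [card_D h2 (lt_trans h3 (by norm_num)), ← h4, sz_eq]
  symm
  apply Finset.sum_subset (Finset.range_mono (by norm_num))
  intro i _ hi
  rw [Finset.mem_range, not_lt] at hi
  exact dig_big h3 i hi

end Spec

end Pool.Agent.Q223.SNP
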