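import Pool.Agent.Q223.SNP.Check

/-!
# Kernel computation, first part of size 2
-/

set_option autoImplicit false

namespace Pool.Agent.Q223.SNP

theorem chk2_0 : ((List.range 3).all fun c => (List.range 6).all fun d => chk 2 0 c d) = true := by
  decide +kernel

theorem chk2_1 : ((List.range 3).all fun c => (List.range 6).all fun d => chk 2 1 c d) = true := by
  decide +kernel

theorem chk2_2 : ((List.range 3).all fun c => (List.range 6).all fun d => chk 2 2 c d) = true := by
  decide +kernel

theorem chk2 {b c d : ℕ} (hb : b < 3) (hc : c < 3) (hd : d < 6) : chk 2 b c d = true := by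
  have h : ((List.range 3).all fun c => (List.range 6).all fun d => chk 2 b c d) = true := by
    interval_cases b
    · exact chk2_0
    · exact chk2_1
    · exact chk2_2
  rw [List.all_eq_true] at h
  have h1 := h c (List.mem_range.2 hc)
  rw [List.all_eq_true] at h1
  exact h1 d (List.mem_range.2 hd)

end Pool.Agent.Q223.SNP
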