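import Mathlib
import Pool.Agent.Q223.SNP.K0
import Pool.Agent.Q223.SNP.K1
import Pool.Agent.Q223.SNP.K2
import Pool.Agent.Q223.SNP.K3
import Pool.Agent.Q223.SNP.K4

/-!
# A Schur-positive chromatic symmetric function without saturated Newton polytope
-/

set_option autoImplicit false

namespace Pool.Agent.Q223.SNP

open Finset MvPolynomial

/-- the four parts, of sizes 4, 2, 2, 5 -/
def part (v : Fin 13) : ℕ := if v.val < 4 then 0 else if v.val < 6 then 1 else if v.val < 8 then 2 else 3

/-- the blow-up of the path with four vertices by independent sets of sizes 4, 2, 2, 5 -/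
def G : SimpleGraph (Fin 13) where
  Adj u v := part u + 1 = part v ∨ part v + 1 = part u
  symm := ⟨fun _ _ h => h.symm⟩
  loopless := ⟨fun v h => by rcases h with h | h <;> omega⟩

theorem G_adj (u v : Fin 13) : G.Adj u v ↔ (part u + 1 = part v ∨ part v + 1 = part u) := Iff.rfl

theorem part_lt (v : Fin 13) : part v < 4 := by
  unfold part; split_ifs <;> norm_num

theorem chk_all {a b c d : ℕ} (ha : a < 5) (hb : b < 3) (hc : c < 3) (hd : d < 6) :
    chk a b c d = true := by
  interval_cases a
  · exact chk0 hb hc hd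
  · exact chk1 hb hc hd
  · exact chk2 hb hc hd
  · exact chk3 hb hc hd
  · exact chk4 hb hc hd

theorem tp_le {V : Type} {part : V → ℕ} {W W' : Finset V} (h : W ⊆ W') (i : ℕ) :
    tp part W i ≤ tp part W' i :=
  Finset.card_le_card (Finset.filter_subset_filter _ h)

theorem tp_univ : tp part univ 0 = 4 ∧ tp part univ 1 = 2 ∧ tp part univ 2 = 2 ∧
    tp part univ 3 = 5 := by
  unfold tp
  decide

theorem tp_sdiff {V : Type} [DecidableEq V] {part : V → ℕ} {S W : Finset V} (h : S ⊆ W) (i : ℕ) :
    tp part (W \ S) i = tp part W i - tp part S i := by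
  unfold tp
  rw [← Finset.card_sdiff_of_subset (Finset.filter_subset_filter _ h)]
  congr 1
  ext v
  simp only [Finset.mem_filter, Finset.mem_sdiff]
  tauto

theorem card_tp {V : Type} [DecidableEq V] {part : V → ℕ} (hp : ∀ v, part v < 4) (S : Finset V) :
    S.card = tp part S 0 + tp part S 1 + tp part S 2 + tp part S 3 := by
  have h := Finset.card_eq_sum_card_fiberwise (s := S) (t := range 4) (f := part)
    (fun v _ => by rw [Finset.coe_range]; exact hp v)
  rw [h]
  simp [Finset.sum_range_succ, tp]

theorem stab_iff (S : Finset (Fin 13)) :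
    Stab G S ↔ stb (tp part S 0) (tp part S 1) (tp part S 2) (tp part S 3) = true := by
  have hz : ∀ i, tp part S i = 0 ↔ ∀ v ∈ S, part v ≠ i := by
    intro i
    unfold tp
    rw [Finset.card_eq_zero, Finset.filter_eq_empty_iff]
  have hst : stb (tp part S 0) (tp part S 1) (tp part S 2) (tp part S 3) = true ↔
      (((∀ v ∈ S, part v ≠ 0) ∨ ∀ v ∈ S, part v ≠ 1) ∧ ((∀ v ∈ S, part v ≠ 1) ∨ ∀ v ∈ S, part v ≠ 2)) ∧
        ((∀ v ∈ S, part v ≠ 2) ∨ ∀ v ∈ S, part v ≠ 3) := by
    rw [← hz, ← hz, ← hz, ← hz]
    simp [stb]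
  rw [hst]
  constructor
  · intro h
    refine ⟨⟨?_, ?_⟩, ?_⟩
    · by_contra hcon
      push Not at hcon
      obtain ⟨⟨u, hu, hu'⟩, v, hv, hv'⟩ := hcon
      exact h u hu v hv (Or.inl (by omega))
    · by_contra hcon
      push Not at hcon
      obtain ⟨⟨u, hu, hu'⟩, v, hv, hv'⟩ := hcon
      exact h u hu v hv (Or.inl (by omega))
    · by_contra hcon
      push Not at hcon
      obtain ⟨⟨u, hu, hu'⟩, v, hv, hv'⟩ := hcon
      exact h u hu v hv (Or.inl (by omega))
  · rintro ⟨⟨h1, h2⟩, h3⟩ u hu v hv huv
    have hu4 := part_lt u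
    have hv4 := part_lt v
    have key : ∀ x ∈ S, ∀ y ∈ S, part x + 1 = part y → False := by
      intro x hx y hy hxy
      have hy4 := part_lt y
      have hc : part x = 0 ∨ part x = 1 ∨ part x = 2 := by omega
      rcases hc with h | h | h
      · rcases h1 with h1 | h1
        · exact h1 x hx h
        · exact h1 y hy (by omega)
      · rcases h2 with h2 | h2
        · exact h2 x hx h
        · exact h2 y hy (by omega)
      · rcases h3 with h3 | h3
        · exact h3 x hx h
        · exact h3 y hy (by omega)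
    rcases huv with h | h
    · exact key u hu v hv h
    · exact key v hv u hu h

theorem ev_congr {M : Type} [AddCommGroup M] {φ ψ : ℕ → M} {l : List (ℕ × ℤ)}
    (h : ∀ p ∈ l, φ p.1 = ψ p.1) : ev φ l = ev ψ l := by
  unfold ev
  congr 1
  apply List.map_congr_left
  intro p hp
  rw [h p hp]

theorem ev_mul (φ : ℕ → MvPolynomial ℕ ℤ) (x : MvPolynomial ℕ ℤ) (l : List (ℕ × ℤ)) :
    ev φ l * x = ev (fun w => φ w * x) l := by
  induction l with
  | nil => simp [ev]
  | cons p l ih =>
    obtain ⟨w, a⟩ := p
    rw [ev_cons, ev_cons, add_mul, ih, smul_mul_assoc]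

theorem BS_congr {M : Type} [AddCommMonoid M] {n : ℕ} {f g : ℕ → M} (h : ∀ a ≤ n, f a = g a) :
    BS n f = BS n g := by
  unfold BS
  apply Finset.sum_congr rfl
  intro a ha
  rw [Finset.mem_range] at ha
  rw [h a (by omega)]

theorem D_zero : (D 0).card = 0 := by
  have hv : Val 0 := fun i => by rw [dig_zero, dig_zero]
  rw [card_D hv (by norm_num)]
  apply Finset.sum_eq_zero
  intro i _
  exact dig_zero i

/-- the expansion of the chromatic symmetric polynomials of all induced subgraphs -/
theorem AC_eq (k : ℕ) : ∀ W : Finset (Fin 13), AC G k W =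
    ev (fun w => schur k (D w)) (tab (tp part W 0) (tp part W 1) (tp part W 2) (tp part W 3)) := by
  classical
  have hb : ∀ W : Finset (Fin 13), tp part W 0 < 5 ∧ tp part W 1 < 3 ∧ tp part W 2 < 3 ∧
      tp part W 3 < 6 := by
    intro W
    obtain ⟨h0, h1, h2, h3⟩ := tp_univ
    have e0 := tp_le (part := part) (Finset.subset_univ W) 0
    have e1 := tp_le (part := part) (Finset.subset_univ W) 1
    have e2 := tp_le (part := part) (Finset.subset_univ W) 2
    have e3 := tp_le (part := part) (Finset.subset_univ W) 3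
    omega
  induction k with
  | zero =>
    intro W
    rw [AC_zero]
    obtain ⟨h0, h1, h2, h3⟩ := hb W
    have hc := chk_all h0 h1 h2 h3
    have hcard := card_tp part_lt W
    split_ifs with h
    · subst h
      have ht : ∀ i, tp part (∅ : Finset (Fin 13)) i = 0 := fun i => by simp [tp]
      rw [ht, ht, ht, ht]
      have htab : tab 0 0 0 0 = [(0, 1)] := rfl
      rw [htab, ev_cons, ev_nil, add_zero, one_smul,
        schur_code_zero (fun i => by rw [dig_zero, dig_zero]) (by norm_num), if_pos rfl]
    · have h4 : ev (fun w => schur 0 (D w))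
          (tab (tp part W 0) (tp part W 1) (tp part W 2) (tp part W 3)) =
          ev (fun _ => 0) (tab (tp part W 0) (tp part W 1) (tp part W 2) (tp part W 3)) := by
        apply ev_congr
        intro p hp
        obtain ⟨h5, h6, h7⟩ := chk_val hc p hp
        rw [schur_code_zero h5 (lt_trans h6 (by norm_num)), if_neg]
        intro h8
        rw [h8, D_zero, ← hcard] at h7
        exact h (Finset.card_eq_zero.1 h7.symm)
      rw [h4]
      simp [ev]
  | succ k ih =>
    intro W
    obtain ⟨h0, h1, h2, h3⟩ := hb W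
    have hc := chk_all h0 h1 h2 h3
    rw [AC_succ]
    set t0 := tp part W 0 with ht0
    set t1 := tp part W 1 with ht1
    set t2 := tp part W 2 with ht2
    set t3 := tp part W 3 with ht3
    let F : ℕ → ℕ → ℕ → ℕ → MvPolynomial ℕ ℤ := fun a b c d =>
      if stb a b c d then
        ev (fun w => schur k (D w)) (tab (t0 - a) (t1 - b) (t2 - c) (t3 - d)) *
          X k ^ (a + b + c + d) else 0
    have e1 : ∀ S ∈ W.powerset, (if Stab G S then AC G k (W \ S) * X k ^ S.card else 0) =
        F (tp part S 0) (tp part S 1) (tp part S 2) (tp part S 3) := by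
      intro S hS
      rw [Finset.mem_powerset] at hS
      show _ = if _ then _ else _
      by_cases hst : Stab G S
      · rw [if_pos hst, if_pos ((stab_iff S).1 hst), ih, tp_sdiff hS, tp_sdiff hS, tp_sdiff hS,
          tp_sdiff hS, ← card_tp part_lt S]
      · rw [if_neg hst, if_neg (fun h => hst ((stab_iff S).2 h))]
    have e3 : (∑ S ∈ W.powerset, if Stab G S then AC G k (W \ S) * X k ^ S.card else 0) =
        ∑ S ∈ W.powerset, F (tp part S 0) (tp part S 1) (tp part S 2) (tp part S 3) :=
      Finset.sum_congr rfl e1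
    have e4 := lump part part_lt W F
    rw [← ht0, ← ht1, ← ht2, ← ht3] at e4
    refine Eq.trans ?_ ((e3.trans e4).trans ?_)
    · apply Finset.sum_congr rfl
      intro S _
      congr
      exact Subsingleton.elim _ _
    set N := t0 + t1 + t2 + t3 with hN
    have e2 : ev (fun w => schur (k + 1) (D w)) (tab t0 t1 t2 t3) =
        ev (fun w => ((hs 13 w).map fun y => schur k (D y) * X k ^ (N - (D y).card)).sum)
          (tab t0 t1 t2 t3) := by
      apply ev_congr
      intro p hp
      obtain ⟨h5, h6, h7⟩ := chk_val hc p hp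
      rw [schur_code (by norm_num) h5 h6, h7]
    rw [e2, ← chk_spec hc]
    apply BS_congr
    intro a ha
    apply BS_congr
    intro b hb'
    apply BS_congr
    intro c hc'
    apply BS_congr
    intro d hd'
    show (if _ then _ else _) = _
    split_ifs with hs
    · rw [ev_mul]
      apply ev_congr
      intro p hp
      have hc2 : chk (t0 - a) (t1 - b) (t2 - c) (t3 - d) = true :=
        chk_all (by omega) (by omega) (by omega) (by omega)
      obtain ⟨h5, h6, h7⟩ := chk_val hc2 p hp
      show schur k (D p.1) * X k ^ (a + b + c + d) = schur k (D p.1) * X k ^ (N - (D p.1).card)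
      rw [h7]
      congr 2
      omega
    · rfl

/-- all coefficients of the expansion are nonnegative -/
theorem nonneg : ((tab 4 2 2 5).all fun p => Nat.ble 0 0 && decide (0 ≤ p.2)) = true := by
  decide +kernel

/-- Schur positivity -/
theorem schur_pos (k : ℕ) : ∃ c : YoungDiagram →₀ ℕ,
    AC G k univ = c.sum (fun μ a => a • schur k μ) := by
  classical
  obtain ⟨h0, h1, h2, h3⟩ := tp_univ
  rw [AC_eq, h0, h1, h2, h3]
  have hn := nonneg
  rw [List.all_eq_true] at hn
  have hn' : ∀ p ∈ tab 4 2 2 5, 0 ≤ p.2 := by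
    intro p hp
    have := hn p hp
    rw [Bool.and_eq_true, decide_eq_true_eq] at this
    exact this.2
  generalize tab 4 2 2 5 = l at hn'
  clear hn
  induction l with
  | nil => exact ⟨0, by simp [ev]⟩
  | cons p l ih =>
    obtain ⟨w, a⟩ := p
    obtain ⟨c, hc⟩ := ih (fun q hq => hn' q (List.mem_cons_of_mem _ hq))
    have ha : 0 ≤ a := hn' (w, a) List.mem_cons_self
    refine ⟨Finsupp.single (D w) a.toNat + c, ?_⟩
    rw [ev_cons, hc, Finsupp.sum_add_index' (fun μ => by rw [zero_smul])
      (fun μ x y => by rw [add_smul]), Finsupp.sum_single_index (by rw [zero_smul])]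
    congr 1
    rw [← natCast_zsmul, Int.toNat_of_nonneg ha]

/-! ## The Newton polytope -/

/-- exponents of the chromatic symmetric polynomial -/
theorem mem_supp (k : ℕ) (β : ℕ →₀ ℕ) : β ∈ (AC G k univ).support ↔
    ∃ κ ∈ KC G k univ, ∑ v, Finsupp.single (κ v) 1 = β := by
  classical
  rw [MvPolynomial.mem_support_iff]
  have h1 : MvPolynomial.coeff β (AC G k univ) =
      (((KC G k univ).filter fun κ => ∑ v, Finsupp.single (κ v) 1 = β).card : ℤ) := by
    unfold AC
    rw [MvPolynomial.coeff_sum, Finset.card_filter]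
    push_cast
    apply Finset.sum_congr rfl
    intro κ _
    have h2 : (∏ v, (X (κ v) : MvPolynomial ℕ ℤ)) =
        monomial (∑ v, Finsupp.single (κ v) 1) 1 := by
      rw [MvPolynomial.monomial_sum_one]
      rfl
    rw [h2, MvPolynomial.coeff_monomial]
  rw [h1]
  constructor
  · intro h
    have h2 : ((KC G k univ).filter fun κ => ∑ v, Finsupp.single (κ v) 1 = β).card ≠ 0 := by
      exact_mod_cast h
    obtain ⟨κ, hκ⟩ := Finset.card_ne_zero.1 h2
    rw [Finset.mem_filter] at hκ
    exact ⟨κ, hκ.1, hκ.2⟩
  · rintro ⟨κ, h2, h3⟩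
    have h4 : ((KC G k univ).filter fun κ => ∑ v, Finsupp.single (κ v) 1 = β).card ≠ 0 :=
      Finset.card_ne_zero.2 ⟨κ, Finset.mem_filter.2 ⟨h2, h3⟩⟩
    exact_mod_cast h4

theorem content_apply (κ : Fin 13 → ℕ) (i : ℕ) :
    (∑ v, Finsupp.single (κ v) 1 : ℕ →₀ ℕ) i = (univ.filter fun v => κ v = i).card := by
  rw [Finsupp.finsetSum_apply, Finset.card_filter]
  apply Finset.sum_congr rfl
  intro v _
  rw [Finsupp.single_apply]

/-- exponent vectors with three entries -/
noncomputable def vec3 (x y z : ℕ) : ℕ →₀ ℕ :=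
  Finsupp.single 0 x + Finsupp.single 1 y + Finsupp.single 2 z

theorem vec3_apply (x y z i : ℕ) : vec3 x y z i =
    if i = 0 then x else if i = 1 then y else if i = 2 then z else 0 := by
  unfold vec3
  rw [Finsupp.add_apply, Finsupp.add_apply, Finsupp.single_apply, Finsupp.single_apply,
    Finsupp.single_apply]
  rcases i with _ | _ | _ | i
  · simp
  · simp
  · simp
  · simp

theorem content_eq (κ : Fin 13 → ℕ) (x y z : ℕ) (h3 : ∀ v, κ v < 3)
    (h0 : (univ.filter fun v => κ v = 0).card = x) (h1 : (univ.filter fun v => κ v = 1).card = y)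
    (h2 : (univ.filter fun v => κ v = 2).card = z) : ∑ v, Finsupp.single (κ v) 1 = vec3 x y z := by
  ext i
  rw [content_apply, vec3_apply]
  split_ifs with e0 e1 e2
  · rw [e0, h0]
  · rw [e1, h1]
  · rw [e2, h2]
  · rw [Finset.card_eq_zero, Finset.filter_eq_empty_iff]
    intro v _ hv
    have := h3 v
    omega

theorem mem1 : vec3 9 2 2 ∈ (AC G 3 univ).support := by
  rw [mem_supp]
  refine ⟨fun v => if part v = 0 ∨ part v = 3 then 0 else part v, ?_, ?_⟩
  · rw [mem_KC]
    refine ⟨fun v _ => ?_, fun v hv => absurd (Finset.mem_univ v) hv, fun u _ v _ huv => ?_⟩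
    · revert v; decide
    · rw [G_adj] at huv
      revert u v; decide
  · apply content_eq
    · decide
    · decide
    · decide
    · decide

theorem mem2 : vec3 7 6 0 ∈ (AC G 3 univ).support := by
  rw [mem_supp]
  refine ⟨fun v => if part v = 1 ∨ part v = 3 then 0 else 1, ?_, ?_⟩
  · rw [mem_KC]
    refine ⟨fun v _ => ?_, fun v hv => absurd (Finset.mem_univ v) hv, fun u _ v _ huv => ?_⟩
    · revert v; decide
    · rw [G_adj] at huv
      revert u v; decide
  · apply content_eq
    · decide
    · decide
    · decide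
    · decide

theorem notMem : vec3 8 4 1 ∉ (AC G 3 univ).support := by
  rw [mem_supp]
  rintro ⟨κ, hκ, hc⟩
  rw [mem_KC] at hκ
  obtain ⟨h1, -, h2⟩ := hκ
  have hadj : ∀ u v, (part u + 1 = part v ∨ part v + 1 = part u) → κ u ≠ κ v :=
    fun u v h => h2 u (Finset.mem_univ u) v (Finset.mem_univ v) h
  have hlt : ∀ v, κ v < 3 := fun v => h1 v (Finset.mem_univ v)
  have c0 : (univ.filter fun v => κ v = 0).card = 8 := by
    rw [← content_apply, hc, vec3_apply]; rfl
  have c2 : (univ.filter fun v => κ v = 2).card = 1 := by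
    rw [← content_apply, hc, vec3_apply]; rfl
  -- no centre has the first colour
  have n1 : ∀ c, part c = 1 → κ c ≠ 0 := by
    intro c hc1 hc0
    have hsub : (univ.filter fun v => κ v = 0) ⊆ univ.filter fun v => part v = 1 ∨ part v = 3 := by
      intro v hv
      rw [Finset.mem_filter] at hv ⊢
      refine ⟨Finset.mem_univ v, ?_⟩
      have h3 := part_lt v
      by_contra hcon
      have h4 : part c + 1 = part v ∨ part v + 1 = part c := by omega
      exact hadj c v h4 (hc0.trans hv.2.symm)
    have h5 := Finset.card_le_card hsub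
    have h6 : (univ.filter fun v : Fin 13 => part v = 1 ∨ part v = 3).card = 7 := by decide
    omega
  have n2 : ∀ c, part c = 2 → κ c ≠ 0 := by
    intro c hc1 hc0
    have hsub : (univ.filter fun v => κ v = 0) ⊆ univ.filter fun v => part v = 0 ∨ part v = 2 := by
      intro v hv
      rw [Finset.mem_filter] at hv ⊢
      refine ⟨Finset.mem_univ v, ?_⟩
      have h3 := part_lt v
      by_contra hcon
      have h4 : part c + 1 = part v ∨ part v + 1 = part c := by omega
      exact hadj c v h4 (hc0.trans hv.2.symm)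
    have h5 := Finset.card_le_card hsub
    have h6 : (univ.filter fun v : Fin 13 => part v = 0 ∨ part v = 2).card = 6 := by decide
    omega
  have p4 : part 4 = 1 := by decide
  have p5 : part 5 = 1 := by decide
  have p6 : part 6 = 2 := by decide
  have p7 : part 7 = 2 := by decide
  have k4 := n1 4 p4
  have k5 := n1 5 p5
  have k6 := n2 6 p6
  have k7 := n2 7 p7
  have l4 := hlt 4
  have l5 := hlt 5
  have l6 := hlt 6
  have l7 := hlt 7
  have a46 := hadj 4 6 (Or.inl (by rw [p4, p6]))
  have a47 := hadj 4 7 (Or.inl (by rw [p4, p7]))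
  have a56 := hadj 5 6 (Or.inl (by rw [p5, p6]))
  have h2c : ∀ a b : Fin 13, a ≠ b → κ a = 2 → κ b = 2 → False := by
    intro a b hab ha hb
    have hsub : ({a, b} : Finset (Fin 13)) ⊆ univ.filter fun v => κ v = 2 := by
      intro v hv
      rw [Finset.mem_insert, Finset.mem_singleton] at hv
      rw [Finset.mem_filter]
      rcases hv with rfl | rfl
      · exact ⟨Finset.mem_univ _, ha⟩
      · exact ⟨Finset.mem_univ _, hb⟩
    have := Finset.card_le_card hsub
    rw [Finset.card_pair hab, c2] at this
    omega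
  by_cases h4 : κ 4 = 2
  · exact h2c 4 5 (by decide) h4 (by omega)
  · exact h2c 6 7 (by decide) (by omega) (by omega)

end Pool.Agent.Q223.SNP
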